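import Pool.Agent.TH608.FX.Final

/-!
# The `C⁰` flux conjecture fails for noncompact symplectic manifolds

The manifold is `M = (S² × S² × S²) ∖ {p, q}`, where `p`, `q` have all coordinates equal to the
north pole, respectively to the south pole, with a product form for which the spheres have areas
`4π (2 + √2)`, `8π`, `4π`.
-/

open scoped ContDiff Manifold

namespace Pool.Agent.Results.MP_e3d95b_gt.NoncompactCounterexample

open Pool.Agent.H844R2.AG Pool.Agent.TH608.FX

/-- There are a connected (Hausdorff, second countable, smooth, six-dimensional) symplectic manifold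
`(M, η)` without boundary and an element `ψ` of `Symp_{c,0}(M, η)`, not in `Ham_c(M, η)`, which is
the `C⁰`-limit of elements of `Ham_c(M, η)`, all supported in one compact set. -/
theorem result :
    ∃ (M : Type) (_ : TopologicalSpace M) (_ : ChartedSpace (Fin 3 → ℂ) M)
      (η : TwoForm 𝓘(ℝ, Fin 3 → ℂ) M),
      IsManifold 𝓘(ℝ, Fin 3 → ℂ) ∞ M ∧ T2Space M ∧ SecondCountableTopology M ∧
        ConnectedSpace M ∧ IsSymplectic η ∧
      ∃ ψ : M → M, ψ ∈ SympC0 η ∧ ψ ∉ HamC η ∧
        ∃ f : ℕ → M → M, (∀ n, f n ∈ HamC η) ∧ C0Lim f ψ :=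
  ⟨Pool.Agent.TH608.FX.M, inferInstance, inferInstance, eta aa, inferInstance, inferInstance,
    inferInstance, inferInstance, isSymplectic_eta fun k => lt_of_lt_of_le one_pos (aa_ge k), main⟩

end Pool.Agent.Results.MP_e3d95b_gt.NoncompactCounterexample
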